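import Pool.Agent.X13.SL.Final

set_option autoImplicit false

/-!
# MP_5c3aa2_al: a block of `SL_2(9)` whose decomposition matrix is not unitriangular

Let `G = SL_2(9) = 2.A_6` and `ℓ = 3`. (`G` is perfect and `G/Z(G) = PSL_2(9) = Sp_4(2)'` is simple.)
The faithful ordinary irreducible characters of `G` have the degrees 4, 4, 8, 8, 10, 10, the faithful
irreducible Brauer characters for `ℓ = 3` have the degrees 2, 2, 6, 6. So no row of the decomposition
matrix of the faithful block has a single entry 1 and zeros otherwise, which the first row of a
unitriangular matrix would be.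

The proof does not use these tables. Let `U` be the group of the upper unitriangular matrices and
`t = diag(ζ, ζ⁻¹)`, `ζ` a generator of `F_9ˣ`. A complex representation on which `-1` acts as `-1`
has dimension at least 10 if `U` has a fixed vector, and otherwise the trace of `t` is 0. A simple
module `W` in characteristic 3 on which `-1` acts as `-1` has dimension at most 8, and the
multiplicities `m_i` of the eigenvalues `ζ^i` of `t` satisfy `m_1 ≠ m_5` or `m_3 ≠ m_7`, so that the
Brauer character does not vanish at `t`.

The definitions (Brauer characters, irreducible characters, rows of the decomposition matrix, blocks,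
unitriangularity) are in `Pool.Agent.X13.SL.Defs`.
-/

namespace Pool.Agent.Results.MP_5c3aa2_al.SpecialLinearNine

open Pool.Agent.X13.SL Pool.Agent.X13.SL.Dec

/-- Lifts `θ` of the roots of unity of order prime to 3 exist; and for every such lift the group
`SL_2(9)` has a 3-block whose decomposition matrix is not unitriangular. -/
theorem result :
    (∃ θ : (AlgebraicClosure (ZMod 3))ˣ →* ℂˣ, Function.Injective θ) ∧
    ∀ θ : (AlgebraicClosure (ZMod 3))ˣ →* ℂˣ, Function.Injective θ →
      ∃ B : Set (Reg 3 (Matrix.SpecialLinearGroup (Fin 2) (GaloisField 3 2)) → ℂ),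
        IsBlock θ B ∧ ¬ IsUnitriangular θ B := by
  refine ⟨exists_theta 3, fun θ hθ => ?_⟩
  letI : Fintype (GaloisField 3 2) := Fintype.ofFinite _
  have hF : Fintype.card (GaloisField 3 2) = 9 := by
    rw [← Nat.card_eq_fintype_card, GaloisField.card 3 2 (by norm_num)]
    norm_num
  have ι : GaloisField 3 2 →ₐ[ZMod 3] AlgebraicClosure (ZMod 3) := IsAlgClosed.lift
  exact not_unitriangular hF ι.toRingHom θ hθ

end Pool.Agent.Results.MP_5c3aa2_al.SpecialLinearNine
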